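import Pool.Agent.Y892.HX.Fin

set_option autoImplicit false

/-!
# Semi-finite generalized hexagons containing `H(q, 1)` as a full subgeometry

For every prime power `q ≥ 5` there is a generalized hexagon of order `(q, ∞)` in which `H(q, 1)` is a
full subgeometry, and for all prime powers `q` and all `s ≥ q + 3` there is a generalized hexagon of
order `(s, ∞)` containing `H(q, 1)`. The same holds for the flag geometry of every finite projective
plane, Desarguesian or not.

Proof. Free construction (as in `Pool.Agent.W290.Fr`), but over a base of full lines. In every step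
the distances of the new points are a colouring of the old points. On the base (the flags of a plane of
order `n`, which are the edges of a bipartite graph) the colours are given by König's edge colouring
theorem, except that the points nearest to a prescribed new point form a perfect matching of a subgraph
of the incidence graph of the plane, which exists by Hall's theorem, the balance of points and lines in
this subgraph, and the expansion of the incidence graph, for `n ≥ 5`.
-/

namespace Pool.Agent.Results.MP_3614fc_co.FullSubgeometry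

open scoped LinearAlgebra.Projectivization

/-- the incidence graph of a point-line geometry -/
abbrev incidenceGraph {P L : Type} (I : P → L → Prop) : SimpleGraph (P ⊕ L) :=
  SimpleGraph.fromRel (fun x y : P ⊕ L => ∃ p l, x = Sum.inl p ∧ y = Sum.inr l ∧ I p l)

/-- a generalized hexagon: the incidence graph has diameter 6 and girth 12 -/
def IsGeneralizedHexagon {P L : Type} (I : P → L → Prop) : Prop :=
  (incidenceGraph I).ediam = 6 ∧ (incidenceGraph I).egirth = 12

/-- a generalized hexagon of order `(s, ∞)`: every line has exactly `s + 1` points and every point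
is on infinitely many lines -/
def IsHexagonOfOrder {P L : Type} (I : P → L → Prop) (s : ℕ) : Prop :=
  IsGeneralizedHexagon I ∧ (∀ l, {p | I p l}.Finite ∧ {p | I p l}.ncard = s + 1) ∧
    ∀ p, {l | I p l}.Infinite

/-- the geometry `I` contains the geometry `I₀` as a subgeometry: there are a set `A` of points
and a set `B` of lines of `I` which, with the inherited incidence, form a geometry isomorphic
to `I₀` -/
def ContainsAsSubgeometry {P L P₀ L₀ : Type} (I : P → L → Prop) (I₀ : P₀ → L₀ → Prop) : Prop :=
  ∃ (A : Set P) (B : Set L) (e : A ≃ P₀) (f : B ≃ L₀), ∀ (a : A) (b : B),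
    I a.1 b.1 ↔ I₀ (e a) (f b)

/-- the same, and the subgeometry is full: all points of its lines are points of it -/
def ContainsAsFullSubgeometry {P L P₀ L₀ : Type} (I : P → L → Prop) (I₀ : P₀ → L₀ → Prop) :
    Prop :=
  ∃ (A : Set P) (B : Set L) (e : A ≃ P₀) (f : B ≃ L₀), (∀ (a : A) (b : B),
    I a.1 b.1 ↔ I₀ (e a) (f b)) ∧ ∀ l ∈ B, ∀ p, I p l → p ∈ A

/-- the flags of `PG(2, K)`: incident pairs of a point and a line, both given by homogeneous
coordinates, a point being on a line when the coordinate vectors are orthogonal -/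
abbrev FlagPG2 (K : Type) [Field K] : Type :=
  {x : ℙ K (Fin 3 → K) × ℙ K (Fin 3 → K) // x.1.orthogonal x.2}

/-- the geometry `H(q, 1)` (`q` the number of elements of `K`): its points are the flags of
`PG(2, K)`, its lines are the points and the lines of `PG(2, K)`, and a flag is incident with
its two members -/
def Hq1 (K : Type) [Field K] : FlagPG2 K → (ℙ K (Fin 3 → K) ⊕ ℙ K (Fin 3 → K)) → Prop
  | x, Sum.inl p => x.1.1 = p
  | x, Sum.inr l => x.1.2 = l

/-- the flag geometry of a projective plane with point set `P₀` and line set `L₀` -/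
def FlagGeometry (P₀ L₀ : Type) [Membership P₀ L₀] :
    {x : P₀ × L₀ // x.1 ∈ x.2} → P₀ ⊕ L₀ → Prop
  | x, Sum.inl p => x.1.1 = p
  | x, Sum.inr l => x.1.2 = l

open Pool.Agent.W290.Fr Configuration Configuration.ProjectivePlane

lemma order_pg (K : Type) [Field K] [Finite K] [DecidableEq K] :
    order (ℙ K (Fin 3 → K)) (ℙ K (Fin 3 → K)) = Nat.card K := by
  have := Fintype.ofFinite (ℙ K (Fin 3 → K))
  have h1 := card_points (ℙ K (Fin 3 → K)) (ℙ K (Fin 3 → K))
  have h2 := Projectivization.card_of_finrank K (Fin 3 → K) (n := 3) (by simp)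
  rw [Nat.card_eq_fintype_card, h1] at h2
  simp only [Finset.sum_range_succ, Finset.sum_range_zero] at h2
  set a := order (ℙ K (Fin 3 → K)) (ℙ K (Fin 3 → K))
  set b := Nat.card K
  have h3 : a * a + a = b * b + b := by nlinarith
  rcases lt_trichotomy a b with h | h | h
  · nlinarith
  · exact h
  · nlinarith

/-- the two forms of the embedding for an arbitrary finite projective plane -/
theorem plane (P₀ L₀ : Type) [Membership P₀ L₀] [ProjectivePlane P₀ L₀] [Finite P₀] [Finite L₀]
    (F : {x : P₀ × L₀ // x.1 ∈ x.2} → P₀ ⊕ L₀ → Prop) (hF : ∀ x K, F x K ↔ flagInc x K) :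
    (5 ≤ order P₀ L₀ → ∃ (P L : Type) (I : P → L → Prop), IsHexagonOfOrder I (order P₀ L₀) ∧
        ContainsAsFullSubgeometry I F) ∧
      ∀ s : ℕ, order P₀ L₀ + 3 ≤ s → ∃ (P L : Type) (I : P → L → Prop), IsHexagonOfOrder I s ∧
        ContainsAsSubgeometry I F := by
  classical
  constructor
  · intro hn
    obtain ⟨P, L, I, h1, h2, h3, h4, φ, ψ, h5, h6, h7, h8⟩ :=
      Pool.Agent.Y892.HX.semifinite_full (P := P₀) (L := L₀) hn
    refine ⟨P, L, I, ⟨⟨h1, h2⟩, h3, h4⟩, Set.range φ, Set.range ψ,
      (Equiv.ofInjective φ h5).symm, (Equiv.ofInjective ψ h6).symm, ?_, ?_⟩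
    · rintro ⟨_, p, rfl⟩ ⟨_, l, rfl⟩
      have e1 : (Equiv.ofInjective φ h5).symm ⟨φ p, p, rfl⟩ = p := by
        rw [Equiv.symm_apply_eq]; rfl
      have e2 : (Equiv.ofInjective ψ h6).symm ⟨ψ l, l, rfl⟩ = l := by
        rw [Equiv.symm_apply_eq]; rfl
      rw [e1, e2, hF, h7 p l]
    · rintro _ ⟨K, rfl⟩ p hp
      exact h8 p K hp
  · intro s hs
    obtain ⟨P, L, I, h1, h2, h3, h4, φ, ψ, h5, h6, h7⟩ :=
      Pool.Agent.Y892.HX.semifinite_large (P := P₀) (L := L₀) hs
    refine ⟨P, L, I, ⟨⟨h1, h2⟩, h3, h4⟩, Set.range φ, Set.range ψ,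
      (Equiv.ofInjective φ h5).symm, (Equiv.ofInjective ψ h6).symm, ?_⟩
    rintro ⟨_, p, rfl⟩ ⟨_, l, rfl⟩
    have e1 : (Equiv.ofInjective φ h5).symm ⟨φ p, p, rfl⟩ = p := by
      rw [Equiv.symm_apply_eq]; rfl
    have e2 : (Equiv.ofInjective ψ h6).symm ⟨ψ l, l, rfl⟩ = l := by
      rw [Equiv.symm_apply_eq]; rfl
    rw [e1, e2, hF, h7 p l]

/-- (1) For every finite field `K` with `q ≥ 5` elements there is a semi-finite generalized hexagon of
order `(q, ∞)` which contains `H(q, 1)` as a full subgeometry. (2) For every finite field `K` with `q`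
elements and every `s ≥ q + 3` there is a semi-finite generalized hexagon of order `(s, ∞)` which
contains `H(q, 1)` as a subgeometry. (3) Both statements hold for the flag geometry of an arbitrary
finite projective plane, with the order of the plane instead of `q`. -/
theorem result :
    (∀ (K : Type) [Field K] [Finite K],
      (5 ≤ Nat.card K → ∃ (P L : Type) (I : P → L → Prop), IsHexagonOfOrder I (Nat.card K) ∧
        ContainsAsFullSubgeometry I (Hq1 K)) ∧
      ∀ s : ℕ, Nat.card K + 3 ≤ s → ∃ (P L : Type) (I : P → L → Prop), IsHexagonOfOrder I s ∧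
        ContainsAsSubgeometry I (Hq1 K)) ∧
    ∀ (P₀ L₀ : Type) [Membership P₀ L₀] [ProjectivePlane P₀ L₀] [Finite P₀] [Finite L₀],
      (5 ≤ order P₀ L₀ → ∃ (P L : Type) (I : P → L → Prop), IsHexagonOfOrder I (order P₀ L₀) ∧
        ContainsAsFullSubgeometry I (FlagGeometry P₀ L₀)) ∧
      ∀ s : ℕ, order P₀ L₀ + 3 ≤ s → ∃ (P L : Type) (I : P → L → Prop), IsHexagonOfOrder I s ∧
        ContainsAsSubgeometry I (FlagGeometry P₀ L₀) := by
  classical
  constructor
  · intro K _ _
    have h := plane (ℙ K (Fin 3 → K)) (ℙ K (Fin 3 → K)) (Hq1 K) (by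
      intro x K'
      rcases K' with p | l <;> exact Iff.rfl)
    rw [order_pg] at h
    exact h
  · intro P₀ L₀ _ _ _ _
    exact plane P₀ L₀ (FlagGeometry P₀ L₀) (by
      intro x K'
      rcases K' with p | l <;> exact Iff.rfl)

end Pool.Agent.Results.MP_3614fc_co.FullSubgeometry
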